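import Pool.Agent.U307.RAD.Stm

/-!
Project RAD, package L1: the `L¹` norm of the kernel.
-/

set_option autoImplicit false

namespace Pool.Agent.U608.RAD.L1

open MeasureTheory Set Pool.Agent.U307.RAD

lemma continuous_uu (n l : ℕ) : Continuous (uu n l) := by
  unfold uu
  fun_prop

lemma pos_aux {μ : ℝ} (hμ : 0 < μ) {r : ℝ} (hr : r ∈ Icc (0:ℝ) 1) : 0 < 1 + μ * (1 - r ^ 2) := by
  have h : r ^ 2 ≤ 1 := pow_le_one₀ hr.1 hr.2
  have := mul_nonneg hμ.le (sub_nonneg.2 h)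
  linarith

lemma cont_w {μ : ℝ} (hμ : 0 < μ) :
    ContinuousOn (fun r : ℝ => r / (1 + μ * (1 - r ^ 2)) ^ 2) (uIcc 0 1) := by
  rw [uIcc_of_le zero_le_one]
  refine ContinuousOn.div (by fun_prop) (by fun_prop) fun r hr => ?_
  exact (pow_pos (pos_aux hμ hr) 2).ne'

lemma int_w {μ : ℝ} (hμ : 0 < μ) :
    ∫ r in (0:ℝ)..1, r / (1 + μ * (1 - r ^ 2)) ^ 2 ≤ 1 / (2 * μ) := by
  have hd : ∀ r ∈ uIcc (0:ℝ) 1, HasDerivAt (fun r : ℝ => 1 / (2 * μ) * (1 + μ * (1 - r ^ 2))⁻¹)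
      (r / (1 + μ * (1 - r ^ 2)) ^ 2) r := by
    intro r hr
    rw [uIcc_of_le zero_le_one] at hr
    have hp := pos_aux hμ hr
    have h1 : HasDerivAt (fun r : ℝ => 1 + μ * (1 - r ^ 2)) (μ * (-(2 * r))) r := by
      have h2 : HasDerivAt (fun r : ℝ => r ^ 2) (2 * r) r := by
        simpa using hasDerivAt_pow 2 r
      exact ((h2.const_sub 1).const_mul μ).const_add 1
    have h4 := (h1.inv hp.ne').const_mul (1 / (2 * μ))
    have e : 1 / (2 * μ) * (-(μ * (-(2 * r))) / (1 + μ * (1 - r ^ 2)) ^ 2) =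
        r / (1 + μ * (1 - r ^ 2)) ^ 2 := by
      have hne := hp.ne'
      field_simp
    rw [← e]
    exact h4
  rw [intervalIntegral.integral_eq_sub_of_hasDerivAt hd (cont_w hμ).intervalIntegrable]
  have h5 : 0 < (1 + μ * (1 - (0:ℝ) ^ 2))⁻¹ := inv_pos.2 (pos_aux hμ ⟨le_rfl, zero_le_one⟩)
  have h6 : (1 + μ * (1 - (1:ℝ) ^ 2))⁻¹ = 1 := by norm_num
  rw [h6]
  have h7 : 0 < 1 / (2 * μ) := by positivity
  have h8 := mul_pos h7 h5
  linarith

lemma pointwise (n l : ℕ) {μ lam : ℝ} (hμ : 0 < μ) (hl : 0 < lam) {r : ℝ} (hr : r ∈ Icc (0:ℝ) 1) :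
    |qq n l r| ≤ lam * (uu n l r ^ 2 * r) + lam * μ ^ 2 * (uu n l r ^ 2 * r * (1 - r ^ 2) ^ 2) +
      1 / (2 * lam) * (r / (1 + μ * (1 - r ^ 2)) ^ 2) := by
  have hp := pos_aux hμ hr
  set s := 1 - r ^ 2 with hs
  have hs0 : 0 ≤ s := by
    have h : r ^ 2 ≤ 1 := pow_le_one₀ hr.1 hr.2
    rw [hs]; linarith
  have hr0 := hr.1
  have e1 : |qq n l r| = r * |uu n l r| := by
    unfold qq
    rw [abs_mul, abs_of_nonneg hr0]
  rw [e1]
  set y := |uu n l r| with hy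
  have e2 : uu n l r ^ 2 = y ^ 2 := (sq_abs _).symm
  rw [e2]
  set w := (1 + μ * s) ^ 2 with hw
  have hw0 : 0 < w := pow_pos hp 2
  have hw2 : w ≤ 2 * (1 + μ ^ 2 * s ^ 2) := by
    rw [hw]
    nlinarith [sq_nonneg (1 - μ * s)]
  have h1 : y ≤ lam * y ^ 2 * w / 2 + 1 / (2 * lam) * (1 / w) := by
    have h2 : 0 ≤ (lam * w * y - 1) ^ 2 / (2 * lam * w) := by positivity
    have h3 : (lam * w * y - 1) ^ 2 / (2 * lam * w) =
        lam * y ^ 2 * w / 2 + 1 / (2 * lam) * (1 / w) - y := by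
      field_simp
      ring
    linarith
  have h4 : lam * y ^ 2 * w / 2 ≤ lam * y ^ 2 * (1 + μ ^ 2 * s ^ 2) := by
    have h5 : 0 ≤ lam * y ^ 2 := by positivity
    nlinarith [mul_le_mul_of_nonneg_left hw2 h5]
  calc r * y ≤ r * (lam * y ^ 2 * (1 + μ ^ 2 * s ^ 2) + 1 / (2 * lam) * (1 / w)) :=
        mul_le_mul_of_nonneg_left (by linarith) hr0
    _ = lam * (y ^ 2 * r) + lam * μ ^ 2 * (y ^ 2 * r * s ^ 2) + 1 / (2 * lam) * (r / w) := by
        ring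

theorem t_L1 : S_MOM → S_EN → S_L1 := by
  intro hM hE n l hn
  have h0 := (hM n l hn).2
  have h2 := hE n l hn
  have hn1 : (1:ℝ) ≤ n := by exact_mod_cast hn
  have hl0 : (0:ℝ) ≤ l := Nat.cast_nonneg l
  set m : ℝ := (n:ℝ) + l with hm
  have hm1 : 1 ≤ m := by linarith
  -- the second energy
  have he2 : ∫ r in (0 : ℝ)..1, uu n l r ^ 2 * r * (1 - r ^ 2) ^ 2 ≤ 4 * (n:ℝ) ^ 2 / m := by
    rw [h2]
    have hD : 0 < (2 * (n:ℝ) + l) * ((2 * (n : ℝ) + l) ^ 2 - 1) := by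
      apply mul_pos (by linarith)
      nlinarith
    rw [div_le_div_iff₀ hD (by linarith)]
    have h5 : m ^ 3 ≤ (2 * (n:ℝ) + l) * ((2 * (n : ℝ) + l) ^ 2 - 1) := by
      have e : 2 * (n:ℝ) + l = m + n := by rw [hm]; ring
      rw [e]
      have h6 : m ≤ m + n := by linarith
      nlinarith [mul_nonneg (by linarith : (0:ℝ) ≤ m) (by linarith : (0:ℝ) ≤ (n:ℝ)),
        mul_nonneg (mul_nonneg (by linarith : (0:ℝ) ≤ m) (by linarith : (0:ℝ) ≤ m))
          (by linarith : (0:ℝ) ≤ (n:ℝ) - 1), mul_nonneg (mul_nonneg (by linarith : (0:ℝ) ≤ m)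
          (by linarith : (0:ℝ) ≤ (n:ℝ))) (by linarith : (0:ℝ) ≤ (n:ℝ) - 1),
        mul_nonneg (mul_nonneg (by linarith : (0:ℝ) ≤ (n:ℝ))
          (by linarith : (0:ℝ) ≤ (n:ℝ))) (by linarith : (0:ℝ) ≤ (n:ℝ) - 1)]
    have h7 : 0 ≤ 4 * (n:ℝ) ^ 2 := by positivity
    calc 4 * ((n:ℝ) * m) ^ 2 * m = 4 * (n:ℝ) ^ 2 * m ^ 3 := by ring
      _ ≤ 4 * (n:ℝ) ^ 2 * ((2 * (n:ℝ) + l) * ((2 * (n : ℝ) + l) ^ 2 - 1)) :=
          mul_le_mul_of_nonneg_left h5 h7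
  -- the parameters
  set t : ℝ := (n:ℝ) ^ (1 / 4 : ℝ) with ht
  have ht1 : 1 ≤ t := Real.one_le_rpow hn1 (by norm_num)
  have ht0 : 0 < t := by linarith
  have ht4 : t ^ 4 = n := by
    rw [ht, ← Real.rpow_natCast, ← Real.rpow_mul (by linarith)]
    norm_num
  have ht3 : t ^ 3 = (n:ℝ) ^ (3 / 4 : ℝ) := by
    rw [ht, ← Real.rpow_natCast, ← Real.rpow_mul (by linarith)]
    norm_num
  have hm0 : 0 < m := by linarith
  have hμ : 0 < m / t ^ 2 := by positivity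
  have hlam : 0 < 1 / (5 * m * t) := by positivity
  have hcu := continuous_uu n l
  have i1 : IntervalIntegrable (fun r => uu n l r ^ 2 * r) volume 0 1 :=
    (by fun_prop : Continuous fun r => uu n l r ^ 2 * r).intervalIntegrable _ _
  have i2 : IntervalIntegrable (fun r => uu n l r ^ 2 * r * (1 - r ^ 2) ^ 2) volume 0 1 :=
    (by fun_prop : Continuous fun r => uu n l r ^ 2 * r * (1 - r ^ 2) ^ 2).intervalIntegrable _ _
  have i3 := (cont_w hμ).intervalIntegrable (μ := volume)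
  have iq : IntervalIntegrable (fun r => |qq n l r|) volume 0 1 := by
    unfold qq
    exact (by fun_prop : Continuous fun r => |r * uu n l r|).intervalIntegrable _ _
  have hmain : ∫ r in (0:ℝ)..1, |qq n l r| ≤
      1 / (5 * m * t) * (∫ r in (0 : ℝ)..1, uu n l r ^ 2 * r) +
      1 / (5 * m * t) * (m / t ^ 2) ^ 2 * (∫ r in (0 : ℝ)..1, uu n l r ^ 2 * r * (1 - r ^ 2) ^ 2) +
      1 / (2 * (1 / (5 * m * t))) *
        ∫ r in (0:ℝ)..1, r / (1 + (m / t ^ 2) * (1 - r ^ 2)) ^ 2 := by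
    rw [← intervalIntegral.integral_const_mul, ← intervalIntegral.integral_const_mul,
      ← intervalIntegral.integral_const_mul, ← intervalIntegral.integral_add
      (i1.const_mul _) (i2.const_mul _), ← intervalIntegral.integral_add
      ((i1.const_mul _).add (i2.const_mul _)) (i3.const_mul _)]
    refine intervalIntegral.integral_mono_on zero_le_one iq
      (((i1.const_mul _).add (i2.const_mul _)).add (i3.const_mul _)) fun r hr => ?_
    exact pointwise n l hμ hlam hr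
  have hb1 : 1 / (5 * m * t) * (∫ r in (0 : ℝ)..1, uu n l r ^ 2 * r) = 2 / 5 * t ^ 3 := by
    rw [h0, ← ht4]
    field_simp
  have hb2 : 1 / (5 * m * t) * (m / t ^ 2) ^ 2 *
      (∫ r in (0 : ℝ)..1, uu n l r ^ 2 * r * (1 - r ^ 2) ^ 2) ≤ 4 / 5 * t ^ 3 := by
    refine (mul_le_mul_of_nonneg_left he2 (by positivity)).trans (le_of_eq ?_)
    rw [← ht4]
    field_simp
  have hb3 : 1 / (2 * (1 / (5 * m * t))) *
        ∫ r in (0:ℝ)..1, r / (1 + (m / t ^ 2) * (1 - r ^ 2)) ^ 2 ≤ 5 / 4 * t ^ 3 := by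
    refine (mul_le_mul_of_nonneg_left (int_w hμ) (by positivity)).trans (le_of_eq ?_)
    field_simp
    norm_num
  have ht31 : 1 ≤ t ^ 3 := one_le_pow₀ ht1
  unfold KI
  rw [← ht3]
  linarith

end Pool.Agent.U608.RAD.L1
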