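import Pool.Agent.U307.RAD.Stm2

/-!
Project RAD, package SUP: the `L^p` norm by duality with Schwartz functions.
-/

set_option autoImplicit false

open MeasureTheory Filter Topology Set
open scoped ENNReal SchwartzMap ComplexConjugate

namespace Pool.Agent.U608.RAD.SUP

open Pool.Agent.U307.RAD

/-- the hypothesis extends to continuous functions with compact support -/
lemma step1 {q : ℝ} (hq : 0 < q) {G : ℂ → ℂ} (hG : Continuous G) {B : ℝ} (hB : ∀ z, ‖G z‖ ≤ B)
    {C : ℝ} (h : ∀ h : SchwartzMap ℂ ℂ,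
      ‖∫ z, G z * h z‖ₑ ≤ ENNReal.ofReal C * (∫⁻ z, ‖h z‖ₑ ^ q) ^ (1 / q))
    {H : ℂ → ℂ} (hH : Continuous H) (hc : HasCompactSupport H) :
    ‖∫ z, G z * H z‖ₑ ≤ ENNReal.ofReal C * (∫⁻ z, ‖H z‖ₑ ^ q) ^ (1 / q) := by
  have hB0 : 0 ≤ B := (norm_nonneg _).trans (hB 0)
  obtain ⟨M, hM⟩ := hH.bounded_above_of_compact_support hc
  have hM0 : 0 ≤ M := (norm_nonneg _).trans (hM 0)
  choose g hg1 hg2 hg3 using fun k : ℕ =>
    hH.exists_contDiff_approx (n := ⊤) (ε := fun _ => 1 / ((k : ℝ) + 1)) continuous_const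
      (fun _ => by positivity)
  have hs : ∀ k, HasCompactSupport (g k) := fun k => hc.mono (hg3 k)
  have hlim : ∀ z, Tendsto (fun k => g k z) atTop (𝓝 (H z)) := by
    intro z
    rw [tendsto_iff_dist_tendsto_zero]
    refine squeeze_zero (fun k => dist_nonneg) (fun k => (hg2 k z).le)
      tendsto_one_div_add_atTop_nhds_zero_nat
  have hbd : ∀ k z, ‖g k z‖ ≤ (tsupport H).indicator (fun _ => M + 1) z := by
    intro k z
    by_cases hz : z ∈ tsupport H
    · rw [indicator_of_mem hz]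
      have h1 : dist (g k z) (H z) ≤ 1 := by
        refine (hg2 k z).le.trans ?_
        rw [div_le_one (by positivity)]
        have : (0:ℝ) ≤ k := Nat.cast_nonneg k
        linarith
      rw [dist_eq_norm] at h1
      calc ‖g k z‖ = ‖H z + (g k z - H z)‖ := by rw [add_sub_cancel]
        _ ≤ ‖H z‖ + ‖g k z - H z‖ := norm_add_le _ _
        _ ≤ M + 1 := add_le_add (hM z) h1
    · rw [indicator_of_notMem hz]
      have : g k z = 0 := by
        by_contra hne
        exact hz (subset_tsupport H (hg3 k (Function.mem_support.2 hne)))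
      rw [this, norm_zero]
  have hmeas : MeasurableSet (tsupport H) := (isClosed_tsupport H).measurableSet
  have hfin : volume (tsupport H) < ∞ := hc.measure_lt_top
  have L1 : Tendsto (fun k => ∫ z, G z * g k z) atTop (𝓝 (∫ z, G z * H z)) := by
    refine tendsto_integral_of_dominated_convergence
      (fun z => B * (tsupport H).indicator (fun _ => M + 1) z) ?_ ?_ ?_ ?_
    · intro k
      exact (hG.mul (hg1 k).continuous).aestronglyMeasurable
    · refine Integrable.const_mul ?_ B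
      rw [integrable_indicator_iff hmeas]
      exact integrableOn_const hfin.ne
    · intro k
      refine Eventually.of_forall fun z => ?_
      rw [norm_mul]
      exact mul_le_mul (hB z) (hbd k z) (norm_nonneg _) hB0
    · exact Eventually.of_forall fun z => (hlim z).const_mul _
  have L2 : Tendsto (fun k => ∫⁻ z, ‖g k z‖ₑ ^ q) atTop (𝓝 (∫⁻ z, ‖H z‖ₑ ^ q)) := by
    refine tendsto_lintegral_of_dominated_convergence
      ((tsupport H).indicator (fun _ => ENNReal.ofReal (M + 1) ^ q)) ?_ ?_ ?_ ?_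
    · intro k
      exact ((hg1 k).continuous.enorm.measurable).pow_const q
    · intro k
      refine Eventually.of_forall fun z => ?_
      by_cases hz : z ∈ tsupport H
      · rw [indicator_of_mem hz]
        refine ENNReal.rpow_le_rpow ?_ hq.le
        rw [← ofReal_norm]
        refine ENNReal.ofReal_le_ofReal ?_
        have := hbd k z
        rwa [indicator_of_mem hz] at this
      · rw [indicator_of_notMem hz]
        have h1 := hbd k z
        rw [indicator_of_notMem hz] at h1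
        have h2 : g k z = 0 := norm_le_zero_iff.1 h1
        change ‖g k z‖ₑ ^ q ≤ 0
        rw [h2, enorm_zero, ENNReal.zero_rpow_of_pos hq]
    · rw [lintegral_indicator hmeas, setLIntegral_const]
      exact ENNReal.mul_ne_top (ENNReal.rpow_ne_top_of_nonneg hq.le ENNReal.ofReal_ne_top) hfin.ne
    · exact Eventually.of_forall fun z =>
        (ENNReal.continuous_rpow_const.tendsto _).comp ((hlim z).enorm)
  have L3 : Tendsto (fun k => ENNReal.ofReal C * (∫⁻ z, ‖g k z‖ₑ ^ q) ^ (1 / q)) atTop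
      (𝓝 (ENNReal.ofReal C * (∫⁻ z, ‖H z‖ₑ ^ q) ^ (1 / q))) :=
    ENNReal.Tendsto.const_mul ((ENNReal.continuous_rpow_const.tendsto _).comp L2)
      (Or.inr ENNReal.ofReal_ne_top)
  exact le_of_tendsto_of_tendsto' L1.enorm L3 fun k =>
    h ((hs k).toSchwartzMap (hg1 k))

/-- cutoff -/
noncomputable def chi (R : ℕ) (z : ℂ) : ℝ := max 0 (min 1 ((R:ℝ) + 1 - ‖z‖))

lemma chi_nonneg (R : ℕ) (z : ℂ) : 0 ≤ chi R z := le_max_left _ _

lemma chi_le_one (R : ℕ) (z : ℂ) : chi R z ≤ 1 := max_le zero_le_one (min_le_left _ _)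

lemma chi_cont (R : ℕ) : Continuous (chi R) := by
  unfold chi
  fun_prop

lemma chi_zero {R : ℕ} {z : ℂ} (h : (R:ℝ) + 1 ≤ ‖z‖) : chi R z = 0 := by
  unfold chi
  exact max_eq_left ((min_le_right _ _).trans (by linarith))

lemma chi_one {R : ℕ} {z : ℂ} (h : ‖z‖ ≤ R) : chi R z = 1 := by
  unfold chi
  rw [min_eq_left (by linarith), max_eq_right zero_le_one]

lemma chi_mono (z : ℂ) : Monotone fun R => chi R z := by
  intro R S h
  unfold chi
  have : (R:ℝ) ≤ S := by exact_mod_cast h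
  exact max_le_max le_rfl (min_le_min le_rfl (by linarith))

/-- cancelling -/
lemma cancel {p q : ℝ} (hp : 2 < p) (hpq : 1 / p + 1 / q = 1) (hq : 0 < q) {I C : ℝ≥0∞}
    (hI : I ≠ ∞) (h : I ≤ C * I ^ (1 / q)) : I ≤ C ^ p := by
  rcases eq_or_ne I 0 with h0 | h0
  · rw [h0]; exact zero_le
  have hp0 : 0 < p := by linarith
  have e1 : I = I ^ (1 / p) * I ^ (1 / q) := by
    rw [← ENNReal.rpow_add _ _ h0 hI, hpq, ENNReal.rpow_one]
  have h2 : I ^ (1 / q) ≠ 0 := by
    intro h3
    rw [ENNReal.rpow_eq_zero_iff] at h3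
    rcases h3 with ⟨h4, -⟩ | ⟨h4, -⟩
    · exact h0 h4
    · exact hI h4
  have h3 : I ^ (1 / q) ≠ ∞ := ENNReal.rpow_ne_top_of_nonneg (by positivity) hI
  have h4 : I ^ (1 / p) * I ^ (1 / q) ≤ C * I ^ (1 / q) := by rwa [← e1]
  have h5 : I ^ (1 / p) ≤ C := (ENNReal.mul_le_mul_iff_left h2 h3).1 h4
  have h6 : (I ^ (1 / p)) ^ p = I := by
    rw [← ENNReal.rpow_mul, one_div_mul_cancel hp0.ne', ENNReal.rpow_one]
  rw [← h6]
  exact ENNReal.rpow_le_rpow h5 hp0.le

theorem t_SUP : S_SUP := by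
  intro p q hp hpq G hG ⟨B, hB⟩ C hC h
  have hp0 : 0 < p := by linarith
  have hq' : 1 / q = 1 - 1 / p := by linarith
  have hp1 : 1 / p < 1 / 2 := by
    rw [div_lt_div_iff₀ hp0 (by norm_num)]
    linarith
  have hp2 : 0 < 1 / p := by positivity
  have hq0 : 0 < q := by
    have : 0 < 1 / q := by rw [hq']; linarith
    exact one_div_pos.1 this
  have hq1 : 1 ≤ q := by
    by_contra hcon
    have : 1 ≤ 1 / q := by
      rw [le_div_iff₀ hq0]
      linarith
    linarith
  have hpq2 : (p - 1) * q = p := by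
    have h1 : q ≠ 0 := hq0.ne'
    have h2 : p ≠ 0 := hp0.ne'
    field_simp at hpq
    linarith
  have hB0 : 0 ≤ B := (norm_nonneg _).trans (hB 0)
  -- the bound for one cutoff
  have key : ∀ R : ℕ, ∫⁻ z, ENNReal.ofReal (chi R z) * ‖G z‖ₑ ^ p ≤ ENNReal.ofReal C ^ p := by
    intro R
    set H : ℂ → ℂ := fun z => ((chi R z * ‖G z‖ ^ (p - 2) : ℝ) : ℂ) * conj (G z) with hHdef
    have hHc : Continuous H := by
      refine Continuous.mul (Complex.continuous_ofReal.comp ((chi_cont R).mul ?_))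
        (Complex.continuous_conj.comp hG)
      exact hG.norm.rpow_const fun z => Or.inr (by linarith)
    have hHs : HasCompactSupport H := by
      refine HasCompactSupport.intro (isCompact_closedBall (0:ℂ) ((R:ℝ) + 1)) fun z hz => ?_
      have hz' : (R:ℝ) + 1 ≤ ‖z‖ := by
        rw [Metric.mem_closedBall, dist_zero_right, not_le] at hz
        exact hz.le
      simp only [hHdef, chi_zero hz', zero_mul, Complex.ofReal_zero]
    have h1 := step1 hq0 hG hB h hHc hHs
    have e1 : ∀ z, G z * H z = ((chi R z * ‖G z‖ ^ p : ℝ) : ℂ) := by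
      intro z
      have e2 : G z * conj (G z) = ((‖G z‖ ^ 2 : ℝ) : ℂ) := by
        rw [Complex.mul_conj, Complex.normSq_eq_norm_sq]
      have e3 : ‖G z‖ ^ (p - 2) * ‖G z‖ ^ 2 = ‖G z‖ ^ p := by
        rcases eq_or_ne (‖G z‖) 0 with h0 | h0
        · rw [h0, Real.zero_rpow (by linarith : p - 2 ≠ 0), Real.zero_rpow hp0.ne']
          ring
        · have hpos : 0 < ‖G z‖ := lt_of_le_of_ne (norm_nonneg _) (Ne.symm h0)
          rw [← Real.rpow_natCast (‖G z‖) 2, ← Real.rpow_add hpos]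
          congr 1
          norm_num
      calc G z * H z = ((chi R z * ‖G z‖ ^ (p - 2) : ℝ) : ℂ) * (G z * conj (G z)) := by
            simp only [hHdef]; ring
        _ = ((chi R z * ‖G z‖ ^ p : ℝ) : ℂ) := by
            rw [e2, ← Complex.ofReal_mul, mul_assoc, e3]
    have hnn : ∀ z, 0 ≤ chi R z * ‖G z‖ ^ p := fun z =>
      mul_nonneg (chi_nonneg R z) (Real.rpow_nonneg (norm_nonneg _) _)
    have hcontI : Continuous fun z => chi R z * ‖G z‖ ^ p :=
      (chi_cont R).mul (hG.norm.rpow_const fun z => Or.inr hp0.le)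
    have hsI : HasCompactSupport fun z => chi R z * ‖G z‖ ^ p := by
      refine HasCompactSupport.intro (isCompact_closedBall (0:ℂ) ((R:ℝ) + 1)) fun z hz => ?_
      have hz' : (R:ℝ) + 1 ≤ ‖z‖ := by
        rw [Metric.mem_closedBall, dist_zero_right, not_le] at hz
        exact hz.le
      rw [chi_zero hz', zero_mul]
    have hint : Integrable fun z => chi R z * ‖G z‖ ^ p :=
      hcontI.integrable_of_hasCompactSupport hsI
    have e4 : ∀ z, ENNReal.ofReal (chi R z * ‖G z‖ ^ p) =
        ENNReal.ofReal (chi R z) * ‖G z‖ₑ ^ p := by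
      intro z
      rw [ENNReal.ofReal_mul (chi_nonneg R z), ← ENNReal.ofReal_rpow_of_nonneg (norm_nonneg _)
        hp0.le, ofReal_norm]
    have e5 : ‖∫ z, G z * H z‖ₑ = ∫⁻ z, ENNReal.ofReal (chi R z) * ‖G z‖ₑ ^ p := by
      simp only [e1]
      rw [integral_complex_ofReal, ← ofReal_norm, Complex.norm_real,
        Real.norm_of_nonneg (integral_nonneg hnn),
        ofReal_integral_eq_lintegral_ofReal hint (Eventually.of_forall hnn)]
      exact lintegral_congr e4
    have e6 : ∀ z, ‖H z‖ₑ ^ q ≤ ENNReal.ofReal (chi R z) * ‖G z‖ₑ ^ p := by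
      intro z
      have h2 : ‖H z‖ = chi R z * ‖G z‖ ^ (p - 1) := by
        simp only [hHdef, norm_mul, Complex.norm_real, Complex.norm_conj]
        rw [Real.norm_of_nonneg (chi_nonneg R z),
          Real.norm_of_nonneg (Real.rpow_nonneg (norm_nonneg _) _), mul_assoc]
        congr 1
        rcases eq_or_ne (‖G z‖) 0 with h0 | h0
        · rw [h0, Real.zero_rpow (by linarith : p - 1 ≠ 0), mul_zero]
        · have hpos : 0 < ‖G z‖ := lt_of_le_of_ne (norm_nonneg _) (Ne.symm h0)
          rw [← Real.rpow_add_one hpos.ne']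
          congr 1
          ring
      have h3 : (chi R z * ‖G z‖ ^ (p - 1)) ^ q ≤ chi R z * ‖G z‖ ^ p := by
        rw [Real.mul_rpow (chi_nonneg R z) (Real.rpow_nonneg (norm_nonneg _) _),
          ← Real.rpow_mul (norm_nonneg _), hpq2]
        refine mul_le_mul_of_nonneg_right ?_ (Real.rpow_nonneg (norm_nonneg _) _)
        rcases eq_or_ne (chi R z) 0 with h0 | h0
        · rw [h0, Real.zero_rpow hq0.ne']
        · have hpos : 0 < chi R z := lt_of_le_of_ne (chi_nonneg R z) (Ne.symm h0)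
          calc chi R z ^ q ≤ chi R z ^ (1:ℝ) :=
                Real.rpow_le_rpow_of_exponent_ge hpos (chi_le_one R z) hq1
            _ = chi R z := Real.rpow_one _
      rw [← e4, ← ofReal_norm, h2, ENNReal.ofReal_rpow_of_nonneg
        (mul_nonneg (chi_nonneg R z) (Real.rpow_nonneg (norm_nonneg _) _)) hq0.le]
      exact ENNReal.ofReal_le_ofReal h3
    rw [e5] at h1
    have h7 : ∫⁻ z, ENNReal.ofReal (chi R z) * ‖G z‖ₑ ^ p ≤ ENNReal.ofReal C *
        (∫⁻ z, ENNReal.ofReal (chi R z) * ‖G z‖ₑ ^ p) ^ (1 / q) := by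
      refine h1.trans (mul_le_mul' le_rfl (ENNReal.rpow_le_rpow (lintegral_mono e6) ?_))
      positivity
    have h8 : ∫⁻ z, ENNReal.ofReal (chi R z) * ‖G z‖ₑ ^ p ≠ ∞ := by
      rw [← lintegral_congr e4]
      exact (hint.lintegral_lt_top).ne
    exact cancel hp hpq hq0 h8 h7
  -- monotone convergence
  have hmono : Monotone fun (R : ℕ) (z : ℂ) => ENNReal.ofReal (chi R z) * ‖G z‖ₑ ^ p := by
    intro R S hRS z
    exact mul_le_mul' (ENNReal.ofReal_le_ofReal (chi_mono z hRS)) le_rfl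
  have hmeas : ∀ R : ℕ, Measurable fun z => ENNReal.ofReal (chi R z) * ‖G z‖ₑ ^ p := fun R =>
    ((chi_cont R).measurable.ennreal_ofReal).mul (hG.enorm.measurable.pow_const p)
  calc ∫⁻ z, ‖G z‖ₑ ^ p ≤ ∫⁻ z, ⨆ R : ℕ, ENNReal.ofReal (chi R z) * ‖G z‖ₑ ^ p := by
        refine lintegral_mono fun z => ?_
        obtain ⟨R, hR⟩ := exists_nat_ge ‖z‖
        refine le_iSup_of_le R ?_
        rw [chi_one hR, ENNReal.ofReal_one, one_mul]
    _ = ⨆ R : ℕ, ∫⁻ z, ENNReal.ofReal (chi R z) * ‖G z‖ₑ ^ p := lintegral_iSup hmeas hmono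
    _ ≤ ENNReal.ofReal C ^ p := iSup_le key

end Pool.Agent.U608.RAD.SUP
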